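import Pool.Agent.helper58.CRO.SpecK

/-!
# Project cro (MP_5bf3c3_gt), row KC2 (helper29): the crossing inequality
-/

set_option autoImplicit false

open scoped Manifold ContDiff Topology ENNReal
open MeasureTheory Set Bundle Filter

noncomputable section

namespace Pool.Agent.CRO

theorem KC2_ind {α : Type*} [MeasurableSpace α] [TopologicalSpace α] [OpensMeasurableSpace α]
    (U : Set α) (hU : MeasurableSet U) (f : α → ℝ) (hf : ContinuousOn f U) :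
    Measurable (U.indicator f) := by
  classical
  have h := ContinuousOn.measurable_piecewise (g := fun _ => (0 : ℝ)) hf continuousOn_const hU
  have h2 : U.piecewise f (fun _ => (0 : ℝ)) = U.indicator f := by
    ext x
    by_cases hx : x ∈ U
    · simp [hx]
    · simp [hx]
  rw [h2] at h
  exact h

theorem KC2_crs : Continuous (fun q : En 2 × En 2 => crs q.1 q.2) := by
  unfold crs
  fun_prop

/-- The inner integral. -/
def KC2_F {r0 : ℝ} (𝒢 : NChart 2 r0) (e : ℝ) (k' : PS 2 → ℝ) (z : PS 2) : ℝ≥0∞ :=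
  ∫⁻ p' in Fb 𝒢 e z.1, ENNReal.ofReal (crs (𝒢.G z.1 z.2) (𝒢.G z.1 p') * k' (z.1, p'))

theorem KC2_Fm {r0 : ℝ} (𝒢 : NChart 2 r0) (e R : ℝ) (hR : R < r0) (k' : PS 2 → ℝ)
    (hk : Measurable k') :
    Measurable ({z : PS 2 | ‖z.1‖ < R}.indicator (KC2_F 𝒢 e k')) := by
  classical
  have hUo : IsOpen {q : PS 2 × En 2 | ‖q.1.1‖ < R} :=
    isOpen_lt (by fun_prop) continuous_const
  have hG : ContinuousOn (fun q : PS 2 × En 2 => 𝒢.G q.1.1) {q : PS 2 × En 2 | ‖q.1.1‖ < R} := by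
    refine 𝒢.smooth.continuousOn.comp (by fun_prop) ?_
    intro q hq
    rw [mem_ball_zero_iff]
    exact lt_trans hq hR
  have hsp : ContinuousOn (fun q : PS 2 × En 2 => sp 𝒢 (q.1.1, q.2))
      {q : PS 2 × En 2 | ‖q.1.1‖ < R} := by
    unfold sp nrm2
    have hp2 : ContinuousOn (fun q : PS 2 × En 2 => q.2) {q : PS 2 × En 2 | ‖q.1.1‖ < R} := by
      fun_prop
    exact ContinuousOn.sqrt (ContinuousOn.inner (𝕜 := ℝ) (ContinuousOn.clm_apply hG hp2) hp2)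
  have hcr : ContinuousOn (fun q : PS 2 × En 2 => crs (𝒢.G q.1.1 q.1.2) (𝒢.G q.1.1 q.2))
      {q : PS 2 × En 2 | ‖q.1.1‖ < R} := by
    refine KC2_crs.comp_continuousOn (ContinuousOn.prodMk (ContinuousOn.clm_apply hG ?_)
      (ContinuousOn.clm_apply hG ?_))
    · fun_prop
    · fun_prop
  have hsm := KC2_ind _ hUo.measurableSet _ hsp
  have hcm := KC2_ind _ hUo.measurableSet _ hcr
  have hW : MeasurableSet ({q : PS 2 × En 2 | ‖q.1.1‖ < R ∧ e < sp 𝒢 (q.1.1, q.2) ∧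
      sp 𝒢 (q.1.1, q.2) < 1}) := by
    have h1 : {q : PS 2 × En 2 | ‖q.1.1‖ < R ∧ e < sp 𝒢 (q.1.1, q.2) ∧ sp 𝒢 (q.1.1, q.2) < 1} =
        {q : PS 2 × En 2 | ‖q.1.1‖ < R} ∩
        ((fun q => {q : PS 2 × En 2 | ‖q.1.1‖ < R}.indicator
          (fun q : PS 2 × En 2 => sp 𝒢 (q.1.1, q.2)) q) ⁻¹' Ioo e 1) := by
      ext q
      by_cases hq : ‖q.1.1‖ < R
      · have h2 : {q : PS 2 × En 2 | ‖q.1.1‖ < R}.indicator
          (fun q : PS 2 × En 2 => sp 𝒢 (q.1.1, q.2)) q = sp 𝒢 (q.1.1, q.2) :=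
          Set.indicator_of_mem (by exact hq) _
        simp only [mem_ofPred_eq, mem_inter_iff, mem_preimage, h2, mem_Ioo]
      · simp [hq]
    rw [h1]
    exact hUo.measurableSet.inter (hsm measurableSet_Ioo)
  have hf : Measurable (fun q : PS 2 × En 2 =>
      ({q : PS 2 × En 2 | ‖q.1.1‖ < R ∧ e < sp 𝒢 (q.1.1, q.2) ∧ sp 𝒢 (q.1.1, q.2) < 1}).indicator
        (fun q => ENNReal.ofReal ({q : PS 2 × En 2 | ‖q.1.1‖ < R}.indicator
          (fun q : PS 2 × En 2 => crs (𝒢.G q.1.1 q.1.2) (𝒢.G q.1.1 q.2)) q *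
            k' (q.1.1, q.2))) q) := by
    refine Measurable.indicator ?_ hW
    refine ENNReal.measurable_ofReal.comp (hcm.mul (hk.comp ?_))
    fun_prop
  have h3 := hf.lintegral_prod_right' (ν := (volume : Measure (En 2)))
  have h4 : {z : PS 2 | ‖z.1‖ < R}.indicator (KC2_F 𝒢 e k') = fun z : PS 2 => ∫⁻ p' : En 2,
      ({q : PS 2 × En 2 | ‖q.1.1‖ < R ∧ e < sp 𝒢 (q.1.1, q.2) ∧ sp 𝒢 (q.1.1, q.2) < 1}).indicator
        (fun q => ENNReal.ofReal ({q : PS 2 × En 2 | ‖q.1.1‖ < R}.indicator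
          (fun q : PS 2 × En 2 => crs (𝒢.G q.1.1 q.1.2) (𝒢.G q.1.1 q.2)) q *
            k' (q.1.1, q.2))) (z, p') := by
    ext z
    by_cases hz : ‖z.1‖ < R
    · rw [Set.indicator_of_mem (by exact hz)]
      have h5 : MeasurableSet (Fb 𝒢 e z.1) := by
        have h6 : Fb 𝒢 e z.1 = (fun p' : En 2 => (z, p')) ⁻¹'
            {q : PS 2 × En 2 | ‖q.1.1‖ < R ∧ e < sp 𝒢 (q.1.1, q.2) ∧ sp 𝒢 (q.1.1, q.2) < 1} := by
          ext p'
          simp [Fb, hz]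
        rw [h6]
        exact measurable_prodMk_left hW
      unfold KC2_F
      rw [← lintegral_indicator h5]
      refine lintegral_congr fun p' => ?_
      by_cases hp : p' ∈ Fb 𝒢 e z.1
      · rw [Set.indicator_of_mem hp, Set.indicator_of_mem (by exact ⟨hz, hp.1, hp.2⟩),
          Set.indicator_of_mem (by exact hz)]
      · rw [Set.indicator_of_notMem hp, Set.indicator_of_notMem (by
          intro h
          exact hp ⟨h.2.1, h.2.2⟩)]
    · rw [Set.indicator_of_notMem (by exact hz)]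
      symm
      refine (lintegral_congr fun p' => ?_).trans lintegral_zero
      rw [Set.indicator_of_notMem (by
          intro h
          exact hz h.1)]
  rw [h4]
  exact h3

theorem KC2 (h1 : KC1_stmt) (h2 : IMT_stmt) (h3 : INV_stmt) (h4 : IME_stmt) (h5 : IWN_stmt) :
    KC2_stmt := by
  classical
  intro r0 𝒢 L R e r1 H Φ hS k k' hk hk'
  have hRr : R < r0 := lt_trans hS.Rr hS.fl.r1lt
  obtain ⟨-, hSLo, -, -, -, hTT, -⟩ := h4 2 r0 𝒢 L R e r1 H Φ hS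
  have hT := hTT (fun _ => 1) measurable_const
  have hFm := KC2_Fm 𝒢 e R hRr k' hk'.meas
  have hkm : Measurable (fun z : PS 2 => ENNReal.ofReal (k z) * (TT Φ R (fun _ => 1) z)⁻¹) :=
    (ENNReal.measurable_ofReal.comp hk.meas).mul hT.inv
  -- the length of the segment
  have hlen : ∀ z ∈ SL 𝒢 e R, MeasurableSet {u | Stay Φ R z u} ∧
      volume {u | Stay Φ R z u} = TT Φ R (fun _ => 1) z ∧ TT Φ R (fun _ => 1) z ≠ 0 ∧
      TT Φ R (fun _ => 1) z ≠ (⊤ : ℝ≥0∞) := by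
    intro z hz
    obtain ⟨α, β, hα, hβ, hst, -⟩ := h5 2 r0 𝒢 L R e r1 H Φ hS z hz
    have hs : {u | Stay Φ R z u} = Ioo α β := by
      ext u
      exact hst u
    have hTe : TT Φ R (fun _ => 1) z = volume {u | Stay Φ R z u} := by
      unfold TT
      show ∫⁻ (u : ℝ) in {u | Stay Φ R z u}, ENNReal.ofReal 1 = volume {u | Stay Φ R z u}
      rw [ENNReal.ofReal_one, lintegral_const, one_mul, Measure.restrict_apply_univ]
    refine ⟨?_, hTe.symm, ?_, ?_⟩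
    · rw [hs]
      exact measurableSet_Ioo
    · rw [hTe, hs, Real.volume_Ioo]
      intro h
      rw [ENNReal.ofReal_eq_zero] at h
      linarith
    · rw [hTe, hs, Real.volume_Ioo]
      exact ENNReal.ofReal_ne_top
  have hmt := h2 2 r0 𝒢 L R e r1 H Φ hS
    (fun z z' => ENNReal.ofReal (k z) * (TT Φ R (fun _ => 1) z)⁻¹ * KC2_F 𝒢 e k' z') (by
      have h6 : ((SL 𝒢 e R ×ˢ SL 𝒢 e R).indicator (fun q : PS 2 × PS 2 =>
          ENNReal.ofReal (k q.1) * (TT Φ R (fun _ => 1) q.1)⁻¹ * KC2_F 𝒢 e k' q.2)) =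
          (SL 𝒢 e R ×ˢ SL 𝒢 e R).indicator (fun q : PS 2 × PS 2 =>
          ENNReal.ofReal (k q.1) * (TT Φ R (fun _ => 1) q.1)⁻¹ *
            {z : PS 2 | ‖z.1‖ < R}.indicator (KC2_F 𝒢 e k') q.2) := by
        ext q
        by_cases hq : q ∈ SL 𝒢 e R ×ˢ SL 𝒢 e R
        · rw [Set.indicator_of_mem hq, Set.indicator_of_mem hq,
            Set.indicator_of_mem (by exact hq.2.1)]
        · rw [Set.indicator_of_notMem hq, Set.indicator_of_notMem hq]
      rw [h6]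
      exact ((hkm.comp measurable_fst).mul (hFm.comp measurable_snd)).indicator
        (hSLo.measurableSet.prod hSLo.measurableSet))
  have hright : ∫⁻ z in SL 𝒢 e R, QQ 𝒢 e k k' z = ∫⁻ z in SL 𝒢 e R, ∫⁻ u in {u | Stay Φ R z u},
      ENNReal.ofReal (k (Φ u z)) * (TT Φ R (fun _ => 1) (Φ u z))⁻¹ * KC2_F 𝒢 e k' z := by
    refine setLIntegral_congr_fun hSLo.measurableSet ?_
    intro z hz
    obtain ⟨hm, hv, h0, hi⟩ := hlen z hz
    have h7 : ∫⁻ u in {u | Stay Φ R z u},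
        ENNReal.ofReal (k (Φ u z)) * (TT Φ R (fun _ => 1) (Φ u z))⁻¹ * KC2_F 𝒢 e k' z =
        ∫⁻ u in {u | Stay Φ R z u},
        ENNReal.ofReal (k z) * (TT Φ R (fun _ => 1) z)⁻¹ * KC2_F 𝒢 e k' z := by
      refine setLIntegral_congr_fun hm ?_
      intro u hu
      have hi1 := h3 2 r0 𝒢 L R e r1 H Φ hS z hz u hu
      show ENNReal.ofReal (k (Φ u z)) * (TT Φ R (fun _ => 1) (Φ u z))⁻¹ * KC2_F 𝒢 e k' z = _
      rw [hk.inv z hz u hu, hi1.2.2.2.1]
    show QQ 𝒢 e k k' z = ∫⁻ u in {u | Stay Φ R z u},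
        ENNReal.ofReal (k (Φ u z)) * (TT Φ R (fun _ => 1) (Φ u z))⁻¹ * KC2_F 𝒢 e k' z
    rw [h7, lintegral_const, Measure.restrict_apply_univ, hv]
    have h8 : (TT Φ R (fun _ => 1) z)⁻¹ * TT Φ R (fun _ => 1) z = 1 :=
      ENNReal.inv_mul_cancel h0 hi
    calc QQ 𝒢 e k k' z = ENNReal.ofReal (k z) * KC2_F 𝒢 e k' z := rfl
      _ = ENNReal.ofReal (k z) * KC2_F 𝒢 e k' z *
          ((TT Φ R (fun _ => 1) z)⁻¹ * TT Φ R (fun _ => 1) z) := by rw [h8, mul_one]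
      _ = ENNReal.ofReal (k z) * (TT Φ R (fun _ => 1) z)⁻¹ * KC2_F 𝒢 e k' z *
          TT Φ R (fun _ => 1) z := by ring
  rw [hright, ← hmt]
  have hleft : ∀ z ∈ SL 𝒢 e R, ∫⁻ u in {u | Stay Φ R z u},
      ENNReal.ofReal (k z) * (TT Φ R (fun _ => 1) z)⁻¹ * KC2_F 𝒢 e k' (Φ u z) ≤
      ENNReal.ofReal (k z) * (TT Φ R (fun _ => 1) z)⁻¹ * mmk 𝒢 Φ e R k' := by
    intro z hz
    obtain ⟨hm, hv, h0, hi⟩ := hlen z hz
    rw [lintegral_const_mul' _ _ (ENNReal.mul_ne_top ENNReal.ofReal_ne_top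
      (ENNReal.inv_ne_top.2 h0))]
    exact mul_le_mul_right (h1 r0 𝒢 L R e r1 H Φ hS k' hk' z hz) _
  refine (setLIntegral_mono' hSLo.measurableSet hleft).trans ?_
  rw [lintegral_mul_const _ hkm]
  exact le_rfl

end Pool.Agent.CRO
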